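import Pool.Agent.X323.FT.Core

set_option autoImplicit false

/-!
The inequality with a constant near one fails on tangent cosets of one-dimensional tori, for
divisors with arbitrary (moving) coefficients.
-/

namespace Pool.Agent.X323.CN

open FF MvPolynomial Pool.Agent.W603.LV Pool.Agent.W603.PV Pool.Agent.X323.TV Pool.Agent.X323.FT

variable {k L : Type} [Field k] [Field L] [Algebra k L]

/-- the places where the point `x` meets the coordinate hyperplanes, `F = 0` or `E = 0` -/
def meetsL {n : ℕ} (k : Type) [Field k] [Algebra k L] (e : ℕ) (F : MvPolynomial (Fin (n + 1)) L)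
    (e' : ℕ) (E : MvPolynomial (Fin (n + 1)) L) (x : Fin (n + 1) → L) : Set (Place k L) :=
  {P | (∃ i, pord P x < P.ord (x i)) ∨ e * pord P x < P.ord (eval x F) ∨
    e' * pord P x < P.ord (eval x E)}

variable [CharZero k] [IsFF k L] [IsAlgClosed k]

theorem core {n e : ℕ} {F : MvPolynomial (Fin (n + 1)) L} (hF : F.IsHomogeneous e) (he : 1 ≤ e)
    {e' : ℕ} {E : MvPolynomial (Fin (n + 1)) L} (hE : E.IsHomogeneous e')
    {c B : ℝ} {G : MvPolynomial (Fin (n + 1)) L}
    (hineq : ∀ x : Fin (n + 1) → L, (∀ i, x i ≠ 0) → eval x F ≠ 0 → eval x E ≠ 0 →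
      eval x G ≠ 0 → ((e : ℝ) + e') * (pht k x : ℝ) ≤
        c * ((meetsL k e F e' E x).ncard : ℝ) + B)
    {u : Fin (n + 1) → L} (hu : ∀ i, u i ≠ 0) (hFu : eval u F = 0) {κ : Fin (n + 1) → ℕ}
    (htan : ∑ i, (κ i : L) * u i * eval u (pderiv i F) = 0) (hnot : onCurve u κ F ≠ 0)
    {j0 i0 : Fin (n + 1)} (hj0 : κ j0 = 0) (hi0 : ∀ i, κ i ≤ κ i0)
    (hc : c * (((e : ℝ) + e') * κ i0 - 1) < ((e : ℝ) + e') * κ i0) :
    onCurve u κ (G * E) = 0 := by
  classical
  by_contra hne
  -- the polynomial `F (u T ^ k) = (T - 1) ^ 2 q (T)`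
  set p : Polynomial L := onCurve u κ F with hp
  have hp1 : p.IsRoot 1 := by
    rw [Polynomial.IsRoot, hp, eval_onCurve_one, hFu]
  obtain ⟨q1, hq1⟩ := Polynomial.dvd_iff_isRoot.2 hp1
  have hq1r : q1.IsRoot 1 := by
    have h1 := derivative_onCurve_one u κ F
    rw [htan, ← hp, hq1, Polynomial.derivative_mul, Polynomial.eval_add, Polynomial.eval_mul,
      Polynomial.eval_mul] at h1
    simpa using h1
  obtain ⟨q, hq⟩ := Polynomial.dvd_iff_isRoot.2 hq1r
  have hpq : p = (Polynomial.X - Polynomial.C 1) ^ 2 * q := by rw [hq1, hq]; ring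
  have hq0 : q ≠ 0 := by
    rintro rfl
    exact hnot (by rw [hpq, mul_zero])
  set d := κ i0 with hd
  have hdeg : q.natDegree + 2 ≤ e * d := by
    have h1 : p.natDegree = q.natDegree + 2 := by
      rw [hpq, Polynomial.natDegree_mul (pow_ne_zero _ (Polynomial.X_sub_C_ne_zero 1)) hq0,
        Polynomial.natDegree_pow, Polynomial.natDegree_X_sub_C]
      omega
    rw [← h1]
    exact natDegree_onCurve_le u κ F hF hi0
  have hd1 : 1 ≤ d := by
    by_contra h
    have : d = 0 := by omega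
    rw [this] at hdeg
    omega
  have hdR : (1 : ℝ) ≤ d := by exact_mod_cast hd1
  have heR : (1 : ℝ) ≤ e := by exact_mod_cast he
  have he'0 : (0 : ℝ) ≤ e' := Nat.cast_nonneg _
  -- the restriction of E
  set A : Polynomial L := onCurve u κ E with hA
  have hA0 : A ≠ 0 := by
    intro h
    apply hne
    rw [map_mul, ← hA, h, mul_zero]
  have hAdeg : A.natDegree ≤ e' * d := natDegree_onCurve_le _ κ E hE hi0
  obtain ⟨g, hg⟩ := IsFF.exists_transcendental (k := k) (K := L)
  have hhg : 1 ≤ hgt k g := hgt_pos hg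
  have hg0 : g ≠ 0 := by
    rintro rfl
    exact hg (isAlgebraic_zero)
  obtain ⟨T1, hT1⟩ := exists_supp (k := k) (Finset.univ : Finset (Fin (n + 1))) u
  obtain ⟨T2, hT2⟩ := exists_supp (k := k) (Finset.univ : Finset (Fin 1)) ![g]
  set T : Finset (Place k L) := T1 ∪ T2 with hT
  set CA : ℤ := ∑ i ∈ A.support, hgt k (A.coeff i) with hCA
  set CQ : ℤ := ∑ i ∈ q.support, hgt k (q.coeff i) with hCQ
  set c' : ℝ := max c 0 with hc'
  have hc'0 : 0 ≤ c' := le_max_right _ _
  set s : ℝ := (e : ℝ) + e' with hs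
  have hs1 : 1 ≤ s := by linarith
  have hsd : 1 ≤ s * d := by nlinarith
  have hcc : c' * (s * d - 1) < s * d := by
    rcases max_cases c 0 with ⟨h, _⟩ | ⟨h, _⟩
    · rw [hc', h]; exact hc
    · rw [hc', h, zero_mul]; linarith
  set γ : ℝ := s * d - c' * (s * d - 1) with hγ
  have hγ0 : 0 < γ := by linarith
  set hu0 : ℤ := hgt k (u i0 / u j0) with hhu0
  set B1 : ℝ := c' * ((T.card : ℝ) + CQ + CA) + s * hu0 + B with hB1
  -- the choice of m
  have hev : ∀ᶠ m : ℕ in Filter.atTop, B1 < (γ * (hgt k g : ℝ)) * m := by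
    have hpos : 0 < γ * (hgt k g : ℝ) := by
      have : (1 : ℝ) ≤ (hgt k g : ℝ) := by exact_mod_cast hhg
      exact mul_pos hγ0 (by linarith)
    exact (tendsto_natCast_atTop_atTop.const_mul_atTop hpos).eventually_gt_atTop _
  obtain ⟨m, hm1, hm2, hm3⟩ := ((FT.eventually_ne hg hne).and
    ((FT.eventually_ne hg hnot).and hev)).exists
  set h : L := g ^ m with hh
  have hh0 : h ≠ 0 := pow_ne_zero _ hg0
  set x : Fin (n + 1) → L := fun i => u i * h ^ κ i with hx
  have hx0 : ∀ i, x i ≠ 0 := fun i => mul_ne_zero (hu i) (pow_ne_zero _ hh0)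
  have hFx : eval x F = (h - 1) ^ 2 * q.eval h := by
    rw [hx, ← eval_onCurve, ← hp, hpq]
    simp
  have hFx0 : eval x F ≠ 0 := by
    rw [hx, ← eval_onCurve, ← hp]
    exact hm2
  have hGE : eval x G ≠ 0 ∧ eval x E ≠ 0 := by
    rw [eval_onCurve, map_mul] at hm1
    exact ⟨left_ne_zero_of_mul hm1, right_ne_zero_of_mul hm1⟩
  have hEx : eval x E = A.eval h := by
    rw [hA, eval_onCurve]
  have hmain := hineq x hx0 hFx0 hGE.2 hGE.1
  have hheight : hgt k h = m * hgt k g := hgt_pow hg0 m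
  -- the height of x
  have hlow : (d : ℤ) * (m * hgt k g) - hu0 ≤ pht k x := by
    have h0 := hgt_le_pht (k := k) x (hx0 i0) (hx0 j0)
    have h1 : x i0 / x j0 = (u i0 / u j0) * h ^ d := by
      change u i0 * h ^ κ i0 / (u j0 * h ^ κ j0) = _
      rw [hj0, pow_zero, mul_one, ← hd]
      field_simp [hu j0]
    have hcu : u i0 / u j0 ≠ 0 := div_ne_zero (hu i0) (hu j0)
    have h2 := hgt_mul (k := k) (f := (u i0 / u j0)⁻¹) (g := (u i0 / u j0) * h ^ d)
      (inv_ne_zero hcu) (mul_ne_zero hcu (pow_ne_zero _ hh0))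
    rw [← mul_assoc, inv_mul_cancel₀ hcu, one_mul, hgt_inv, hgt_pow hh0, hheight] at h2
    rw [h1] at h0
    rw [hhu0]
    linarith
  -- the truncated counting function
  have hcount : ((meetsL k e F e' E x).ncard : ℤ) ≤ T.card + m * hgt k g +
      (q.natDegree * (m * hgt k g) + CQ) + (A.natDegree * (m * hgt k g) + CA) := by
    have z3 := zeros_ncard (k := k) (y := h - 1)
    have z4 := zeros_ncard (k := k) (y := q.eval h)
    have z5 := zeros_ncard (k := k) (y := A.eval h)
    have hsub : meetsL k e F e' E x ⊆ (T : Set (Place k L)) ∪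
        {P | 0 < P.ord (h - 1)} ∪ {P | 0 < P.ord (q.eval h)} ∪ {P | 0 < P.ord (A.eval h)} := by
      intro P hP
      by_cases hPT : P ∈ T
      · exact Or.inl (Or.inl (Or.inl hPT))
      · have hPg : P.ord g = 0 := by
          by_contra hcon
          exact hPT (Finset.mem_union_right _ (hT2 0 (Finset.mem_univ _) P hcon))
        have hPu : ∀ i, P.ord (u i) = 0 := by
          intro i
          by_contra hcon
          exact hPT (Finset.mem_union_left _ (hT1 i (Finset.mem_univ _) P hcon))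
        have hx1 : ∀ i, P.ord (x i) = 0 := by
          intro i
          change P.ord (u i * h ^ κ i) = 0
          rw [P.ord_mul (hu i) (pow_ne_zero _ hh0), hPu, P.ord_pow, hh, P.ord_pow, hPg]
          ring
        have hmin : pord P x = 0 := by
          obtain ⟨j, hj, hj'⟩ := exists_pord P ⟨j0, hx0 j0⟩
          rw [← hj', hx1]
        have hP' : (∃ i, pord P x < P.ord (x i)) ∨ e * pord P x < P.ord (eval x F) ∨
          e' * pord P x < P.ord (eval x E) := hP
        rw [hmin] at hP'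
        simp only [mul_zero] at hP'
        rcases hP' with ⟨i, hi⟩ | hP' | hP'
        · rw [hx1] at hi
          exact absurd hi (lt_irrefl _)
        · have hne1 : (h - 1) ^ 2 ≠ 0 ∧ q.eval h ≠ 0 := by
            rw [hFx] at hFx0
            exact ⟨left_ne_zero_of_mul hFx0, right_ne_zero_of_mul hFx0⟩
          rw [hFx, P.ord_mul hne1.1 hne1.2, P.ord_pow] at hP'
          by_cases h1 : 0 < P.ord (h - 1)
          · exact Or.inl (Or.inl (Or.inr h1))
          · refine Or.inl (Or.inr ?_)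
            change 0 < P.ord (q.eval h)
            push_cast at hP'
            omega
        · rw [hEx] at hP'
          exact Or.inr hP'
    have hfin : ((T : Set (Place k L)) ∪
        {P | 0 < P.ord (h - 1)} ∪ {P | 0 < P.ord (q.eval h)} ∪ {P | 0 < P.ord (A.eval h)}).Finite :=
      ((T.finite_toSet.union z3.1).union z4.1).union z5.1
    have h1 := Set.ncard_le_ncard hsub hfin
    have u1 := Set.ncard_union_le ((T : Set (Place k L)) ∪
        {P | 0 < P.ord (h - 1)} ∪ {P | 0 < P.ord (q.eval h)}) {P | 0 < P.ord (A.eval h)}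
    have u2 := Set.ncard_union_le ((T : Set (Place k L)) ∪
        {P | 0 < P.ord (h - 1)}) {P | 0 < P.ord (q.eval h)}
    have u3 := Set.ncard_union_le (T : Set (Place k L)) {P | 0 < P.ord (h - 1)}
    have u4 : (T : Set (Place k L)).ncard = T.card := Set.ncard_coe_finset T
    have v2 : hgt k (h - 1) ≤ m * hgt k g := by
      have := hgt_poly_const (k := k) h (Polynomial.X - Polynomial.C 1)
      rw [Polynomial.natDegree_X_sub_C, hheight] at this
      simpa using this
    have v3 := hgt_poly (k := k) h q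
    have v4 := hgt_poly (k := k) h A
    rw [hheight] at v3 v4
    have w3 := z3.2
    have w4 := z4.2
    have w5 := z5.2
    have t1 : ((meetsL k e F e' E x).ncard : ℤ) ≤ (T.card : ℤ) +
        ({P : Place k L | 0 < P.ord (h - 1)}.ncard : ℤ) +
        ({P : Place k L | 0 < P.ord (q.eval h)}.ncard : ℤ) +
        ({P : Place k L | 0 < P.ord (A.eval h)}.ncard : ℤ) := by
      exact_mod_cast h1.trans (by omega)
    linarith
  -- the contradiction
  have hcR : ((meetsL k e F e' E x).ncard : ℝ) ≤ (T.card : ℝ) + m * (hgt k g : ℝ) +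
      (q.natDegree * (m * (hgt k g : ℝ)) + CQ) + (A.natDegree * (m * (hgt k g : ℝ)) + CA) := by
    exact_mod_cast hcount
  have hlR : (d : ℝ) * (m * (hgt k g : ℝ)) - hu0 ≤ (pht k x : ℝ) := by exact_mod_cast hlow
  have hgR : (1 : ℝ) ≤ (hgt k g : ℝ) := by exact_mod_cast hhg
  have hmg : 0 ≤ (m : ℝ) * (hgt k g : ℝ) := by positivity
  have hqR : (q.natDegree : ℝ) ≤ (e : ℝ) * d - 2 := by
    have : ((q.natDegree + 2 : ℕ) : ℝ) ≤ ((e * d : ℕ) : ℝ) := by exact_mod_cast hdeg
    push_cast at this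
    linarith
  have hAR : (A.natDegree : ℝ) ≤ (e' : ℝ) * d := by exact_mod_cast hAdeg
  have hcR2 : ((meetsL k e F e' E x).ncard : ℝ) ≤ (s * d - 1) * (m * (hgt k g : ℝ)) +
      ((T.card : ℝ) + CQ + CA) := by
    have k2 := mul_le_mul_of_nonneg_right hqR hmg
    have k3 := mul_le_mul_of_nonneg_right hAR hmg
    have k4 : (s * d - 1) * (m * (hgt k g : ℝ)) = ((e : ℝ) * d - 2) * (m * (hgt k g : ℝ)) +
        (e' : ℝ) * d * (m * (hgt k g : ℝ)) + m * (hgt k g : ℝ) := by rw [hs]; ring
    linarith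
  have hN0 : (0 : ℝ) ≤ ((meetsL k e F e' E x).ncard : ℝ) := Nat.cast_nonneg _
  have r1 : c * ((meetsL k e F e' E x).ncard : ℝ) ≤ c' * ((s * d - 1) * (m * (hgt k g : ℝ)) +
      ((T.card : ℝ) + CQ + CA)) :=
    (mul_le_mul_of_nonneg_right (le_max_left c 0) hN0).trans (mul_le_mul_of_nonneg_left hcR2 hc'0)
  have r2 : s * ((d : ℝ) * (m * (hgt k g : ℝ)) - hu0) ≤ s * (pht k x : ℝ) :=
    mul_le_mul_of_nonneg_left hlR (by linarith)
  have r3 : (γ * (hgt k g : ℝ)) * m = s * (d * (m * (hgt k g : ℝ))) -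
      c' * ((s * d - 1) * (m * (hgt k g : ℝ))) := by rw [hγ]; ring
  rw [r3] at hm3
  have r4 : s * ((d : ℝ) * (m * (hgt k g : ℝ)) - hu0) = s * (d * (m * (hgt k g : ℝ))) - s * hu0 := by
    ring
  have r5 : c' * ((s * d - 1) * (m * (hgt k g : ℝ)) + ((T.card : ℝ) + CQ + CA)) =
      c' * ((s * d - 1) * (m * (hgt k g : ℝ))) + c' * ((T.card : ℝ) + CQ + CA) := by ring
  linarith

end Pool.Agent.X323.CN
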