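import Pool.Agent.X323.FT.Main

set_option autoImplicit false

/-!
The degree of a hypersurface which contains all tangent cosets of small degree.
-/

namespace Pool.Agent.X323.CN

open MvPolynomial Pool.Agent.X323.FT Pool.Agent.X323.TV Pool.Agent.W231.V

theorem geo {Ω : Type} [Field Ω] [IsAlgClosed Ω] [CharZero Ω] {n e : ℕ}
    {F : MvPolynomial (Fin (n + 1)) Ω} (hF : F.IsHomogeneous e) (he : 1 ≤ e)
    {i₀ i₁ i₂ : Fin (n + 1)} (h01 : i₀ ≠ i₁) (h02 : i₀ ≠ i₂) (h12 : i₁ ≠ i₂)
    (hT01 : Trans F i₀ i₁) (hT02 : Trans F i₀ i₂) (hT12 : Trans F i₁ i₂)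
    {H : MvPolynomial (Fin (n + 1)) Ω} {δ : ℕ} (hH : H.IsHomogeneous δ) (hH0 : H ≠ 0) (B : ℕ)
    (hv : ∀ (u : Fin (n + 1) → Ω) (κ : Fin (n + 1) → ℕ) (j0 i0 : Fin (n + 1)), (∀ i, u i ≠ 0) →
      eval u F = 0 → ∑ i, (κ i : Ω) * u i * eval u (pderiv i F) = 0 → onCurve u κ F ≠ 0 →
      κ j0 = 0 → (∀ i, κ i ≤ κ i0) → 1 ≤ κ i0 → κ i0 ≤ B → onCurve u κ H = 0) :
    ∑ b ∈ Finset.Icc 2 B, b * b.totient ≤ δ := by
  classical
  have : Infinite Ω := IsAlgClosed.instInfinite
  obtain ⟨R1, hR1, hR1p⟩ := generic hF he h01 h02 hT01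
  obtain ⟨R2, hR2, hR2p⟩ := generic hF he h02 h01 hT02
  -- a generic point
  obtain ⟨p, hp⟩ : ∃ p : Fin (n + 1) → Ω, eval p (H * R1 * R2 * ∏ j, X j) ≠ 0 := by
    by_contra hcon
    push Not at hcon
    have h0 : H * R1 * R2 * ∏ j, X j = 0 := by
      refine MvPolynomial.funext fun x => ?_
      rw [hcon x, map_zero]
    exact mul_ne_zero (mul_ne_zero (mul_ne_zero hH0 hR1) hR2)
      (Finset.prod_ne_zero_iff.2 fun j _ => X_ne_zero j) h0
  rw [map_mul, map_mul, map_mul] at hp
  have p5 := right_ne_zero_of_mul hp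
  have hp2 := right_ne_zero_of_mul (left_ne_zero_of_mul hp)
  have hp1 := right_ne_zero_of_mul (left_ne_zero_of_mul (left_ne_zero_of_mul hp))
  have hHp := left_ne_zero_of_mul (left_ne_zero_of_mul (left_ne_zero_of_mul hp))
  have hpj : ∀ j, p j ≠ 0 := by
    intro j hj
    apply p5
    rw [map_prod]
    refine Finset.prod_eq_zero (Finset.mem_univ j) ?_
    rw [eval_X, hj]
  -- the restriction of H to the plane
  set f : Polynomial (Polynomial Ω) := eval₂ ((Polynomial.C : Polynomial Ω →+* _).comp
    (Polynomial.C : Ω →+* _)) (fun j => if j = i₁ then Polynomial.X else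
      if j = i₂ then Polynomial.C Polynomial.X else Polynomial.C (Polynomial.C (p j))) H with hf
  have hf0 : f ≠ 0 := by
    intro h0
    apply hHp
    have h1 : (f.eval (Polynomial.C (p i₁))).eval (p i₂) = eval p H := by
      have h2 : (f.eval (Polynomial.C (p i₁))).eval (p i₂) =
          ((Polynomial.evalRingHom (p i₂)).comp
            (Polynomial.evalRingHom (Polynomial.C (p i₁)))) f := rfl
      rw [h2, hf, MvPolynomial.hom_eval₂]
      have h3 : ((Polynomial.evalRingHom (p i₂)).comp
            (Polynomial.evalRingHom (Polynomial.C (p i₁)))).comp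
          ((Polynomial.C : Polynomial Ω →+* _).comp (Polynomial.C : Ω →+* _)) =
            RingHom.id Ω := by
        ext c
        simp
      rw [h3]
      change eval₂ (RingHom.id Ω) _ H = eval₂ (RingHom.id Ω) _ H
      congr 1
      funext j
      by_cases h4 : j = i₁
      · subst h4
        simp
      · by_cases h5 : j = i₂
        · subst h5
          simp [h4]
        · simp [h4, h5]
    rw [← h1, h0, Polynomial.eval_zero, Polynomial.eval_zero]
  have hdeg : f.natDegree ≤ δ := by
    have h1 := MvPolynomial.aeval_natDegree_le (m := δ) (n := 1)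
      (MvPolynomial.map (Polynomial.C : Ω →+* Polynomial Ω) H)
      ((hH.map _).totalDegree_le)
      (fun j => if j = i₁ then Polynomial.X else
      if j = i₂ then Polynomial.C Polynomial.X else Polynomial.C (Polynomial.C
        (p j))) (fun j => by
          by_cases h4 : j = i₁
          · rw [if_pos h4]
            exact Polynomial.natDegree_X_le
          · rw [if_neg h4]
            by_cases h5 : j = i₂
            · rw [if_pos h5, Polynomial.natDegree_C]
              exact Nat.zero_le 1
            · rw [if_neg h5, Polynomial.natDegree_C]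
              exact Nat.zero_le 1)
    rw [mul_one, MvPolynomial.aeval_def, MvPolynomial.eval₂_map] at h1
    exact h1
  -- the tangent cosets
  have hcos : ∀ a b : ℕ, 1 ≤ a → a < b → b ≤ B → ∃ x y : Ω, x ≠ 0 ∧ y ≠ 0 ∧
      crv x y a b f = 0 := by
    intro a b ha hab hbB
    obtain ⟨x, y, hx, hy, h1, h2⟩ := exists_tangent hF he h02 h12 hT02 hT12 (by omega : 1 ≤ b) ha
      hab (fun j => if j = i₁ then 0 else if j = i₂ then 0 else p j) (by simp)
      (by simp) (hR1p p hp1) (by
        intro y hy
        have h := hR2p p hp2 y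
        have hc : (fun j => if j = i₂ then (0 : Ω) else if j = i₁ then 0 else p j) =
            fun j => if j = i₁ then 0 else if j = i₂ then 0 else p j := by
          funext j
          by_cases h4 : j = i₁ <;> by_cases h5 : j = i₂ <;> simp [h4, h5]
        have hc2 : (fun j => (if j = i₂ then (0 : Ω) else if j = i₁ then 0 else p j) +
            (Pi.single i₂ (1 : Ω) : Fin (n + 1) → Ω) j * y) =
            fun j => (if j = i₁ then (0 : Ω) else if j = i₂ then 0 else p j) +
            (Pi.single i₂ (1 : Ω) : Fin (n + 1) → Ω) j * y := by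
          funext j
          rw [congrFun hc j]
        rw [hc2] at h
        exact h hy)
    refine ⟨x, y, hx, hy, ?_⟩
    set u : Fin (n + 1) → Ω := fun j => if j = i₁ then x else if j = i₂ then y else
      (if j = i₁ then 0 else if j = i₂ then 0 else p j) with hu
    set κ : Fin (n + 1) → ℕ := fun j => if j = i₁ then a else if j = i₂ then b else 0 with hκ
    have hu1 : u i₁ = x := by simp [hu]
    have hu2 : u i₂ = y := by simp [hu, Ne.symm h12]
    have huj : ∀ j, j ≠ i₁ → j ≠ i₂ → u j = p j := fun j h3 h4 => by simp [hu, h3, h4]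
    have hκ1 : κ i₁ = a := by simp [hκ]
    have hκ2 : κ i₂ = b := by simp [hκ, Ne.symm h12]
    have hκj : ∀ j, j ≠ i₁ → j ≠ i₂ → κ j = 0 := fun j h3 h4 => by simp [hκ, h3, h4]
    have hu0 : ∀ j, u j ≠ 0 := by
      intro j
      by_cases h3 : j = i₁
      · rw [h3, hu1]; exact hx
      · by_cases h4 : j = i₂
        · rw [h4, hu2]; exact hy
        · rw [huj j h3 h4]; exact hpj j
    have htan : ∑ i, (κ i : Ω) * u i * eval u (pderiv i F) = 0 := by
      rw [← Finset.sum_subset (Finset.subset_univ ({i₁, i₂} : Finset (Fin (n + 1)))),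
        Finset.sum_pair h12, hκ1, hκ2]
      · unfold xd at h2
        rw [map_mul, map_mul, eval_X, eval_X] at h2
        rw [← h2]
        ring
      · intro l _ hl
        rw [Finset.mem_insert, Finset.mem_singleton, not_or] at hl
        rw [hκj l hl.1 hl.2]
        simp
    have hv' := (vertex h02 hT02).1
    have hcoef : coeff (Finsupp.single i₂ e) F ≠ 0 := by
      intro hc
      apply hv'
      rw [eval_eq']
      refine Finset.sum_eq_zero fun s hs => ?_
      have hsdeg : ∑ j, s j = e := by
        have := hF (mem_support_iff.1 hs)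
        rw [← this, Finsupp.weight_apply, Finsupp.sum_fintype _ _ (by simp)]
        simp
      by_cases h3 : ∀ j, j ≠ i₂ → s j = 0
      · exfalso
        apply mem_support_iff.1 hs
        have h4 : s = Finsupp.single i₂ e := by
          ext j
          by_cases h5 : j = i₂
          · subst h5
            rw [Finsupp.single_eq_same, ← hsdeg]
            refine (Finset.sum_eq_single _ (fun l _ hl => h3 l hl) ?_).symm
            intro h; exact absurd (Finset.mem_univ _) h
          · rw [h3 j h5, Finsupp.single_eq_of_ne h5]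
        rw [h4]
        exact hc
      · push Not at h3
        obtain ⟨j, hj, hsj⟩ := h3
        rw [Finset.prod_eq_zero (Finset.mem_univ j), mul_zero]
        rw [Pi.single_eq_of_ne hj, zero_pow hsj]
    have hnot : onCurve u κ F ≠ 0 := by
      refine onCurve_ne_zero u κ F hF i₂ hcoef (hu0 i₂) ?_
      intro j hj
      rw [hκ2]
      by_cases h3 : j = i₁
      · rw [h3, hκ1]; exact hab
      · rw [hκj j h3 hj]; omega
    have hmax : ∀ i, κ i ≤ κ i₂ := by
      intro i
      rw [hκ2]
      by_cases h4 : i = i₁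
      · rw [h4, hκ1]; omega
      · by_cases h5 : i = i₂
        · rw [h5, hκ2]
        · rw [hκj i h4 h5]; exact Nat.zero_le _
    have hmain := hv u κ i₀ i₂ hu0 h1 htan hnot (hκj i₀ h01 h02) hmax (by rw [hκ2]; omega)
      (by rw [hκ2]; exact hbB)
    rw [← hmain, hf, MvPolynomial.hom_eval₂]
    unfold onCurve
    rw [aeval_def]
    have h4 : (crv x y a b).comp
        ((Polynomial.C : Polynomial Ω →+* _).comp (Polynomial.C : Ω →+* _)) =
          algebraMap Ω (Polynomial Ω) := by
      ext c
      simp [crv_C, sub_C]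
    rw [h4]
    congr 1
    funext j
    by_cases h5 : j = i₁
    · subst h5
      simp only [if_true, crv_X, hu1, hκ1]
    · by_cases h6 : j = i₂
      · subst h6
        simp only [if_neg h5, if_true, crv_C, sub_X, hu2, hκ2]
      · simp only [if_neg h5, if_neg h6, crv_C, sub_C, huj j h5 h6, hκj j h5 h6, pow_zero,
          mul_one]
  -- the set of pairs
  set T : Finset (Σ _ : ℕ, ℕ) := (Finset.Icc 2 B).sigma
    (fun b => (Finset.range b).filter (fun a => b.Coprime a)) with hT
  have hmem : ∀ p ∈ T, 1 ≤ p.2 ∧ p.2 < p.1 ∧ p.1 ≤ B ∧ p.1.Coprime p.2 := by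
    rintro ⟨b, a⟩ hp
    rw [hT, Finset.mem_sigma, Finset.mem_Icc, Finset.mem_filter, Finset.mem_range] at hp
    obtain ⟨⟨h1, h2⟩, h3, h4⟩ := hp
    refine ⟨?_, h3, h2, h4⟩
    simp only at h1 h4 ⊢
    by_contra h5
    have h6 : a = 0 := by omega
    rw [h6, Nat.coprime_zero_right] at h4
    omega
  have hsum : ∑ p ∈ T, p.1 = ∑ b ∈ Finset.Icc 2 B, b * b.totient := by
    rw [hT, Finset.sum_sigma]
    refine Finset.sum_congr rfl fun b _ => ?_
    rw [Finset.sum_const, smul_eq_mul, mul_comm, Nat.totient_eq_card_coprime]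
  have hex : ∀ p : (Σ _ : ℕ, ℕ), ∃ x y : Ω, p ∈ T → x ≠ 0 ∧ y ≠ 0 ∧
      crv x y p.2 p.1 f = 0 := by
    intro p
    by_cases hpT : p ∈ T
    · have h := hmem p hpT
      obtain ⟨x, y, h1⟩ := hcos p.2 p.1 h.1 h.2.1 h.2.2.1
      exact ⟨x, y, fun _ => h1⟩
    · exact ⟨0, 0, fun h => absurd h hpT⟩
  choose x y hxy using hex
  have key := degree_bound T (fun p => p.2) (fun p => p.1) x y
    (fun p hp => (hxy p hp).1)
    (fun p hp => (hxy p hp).2.1)
    (fun p hp => by have h := hmem p hp; omega)
    (fun p hp => ((hmem p hp).2.2.2).symm)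
    (by
      rintro ⟨b, a⟩ hp ⟨b', a'⟩ hq hne heq
      apply hne
      have h1 := hmem _ hp
      have h2 := hmem _ hq
      simp only at h1 h2 heq
      have h3 : b = b' := by
        apply Nat.dvd_antisymm
        · refine Nat.Coprime.dvd_of_dvd_mul_left h1.2.2.2 ?_
          rw [heq]
          exact dvd_mul_right _ _
        · refine Nat.Coprime.dvd_of_dvd_mul_left h2.2.2.2 ?_
          rw [mul_comm a' b, ← heq]
          exact dvd_mul_left _ _
      subst h3
      have h4 : a = a' := by
        rw [mul_comm a b] at heq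
        exact Nat.eq_of_mul_eq_mul_left (by omega) heq
      rw [h4])
    f hf0 (fun p hp => (hxy p hp).2.2)
  rw [hsum] at key
  exact key.trans hdeg

/-- the sums are unbounded -/
theorem sum_unbounded (δ : ℕ) : ∃ B : ℕ, δ < ∑ b ∈ Finset.Icc 2 B, b * b.totient := by
  refine ⟨δ + 2, ?_⟩
  refine lt_of_lt_of_le ?_ (Finset.single_le_sum (f := fun b => b * b.totient)
    (fun _ _ => Nat.zero_le _) (Finset.mem_Icc.2 ⟨by omega, le_refl (δ + 2)⟩))
  have h1 : 1 ≤ (δ + 2).totient := Nat.totient_pos.2 (by omega)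
  calc δ < δ + 2 := by omega
    _ = (δ + 2) * 1 := (mul_one _).symm
    _ ≤ _ := Nat.mul_le_mul_left _ h1

end Pool.Agent.X323.CN
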